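import Mathlib

open Set Filter Topology Metric

namespace Pool.Agent.Results.MP_122452_an.AdmissiblePower2

/-- Modulus of convexity of power type 2. -/
def PowerType2 (X : Type*) [NormedAddCommGroup X] [NormedSpace ℝ X] : Prop :=
  ∃ L : ℝ, 0 < L ∧ ∀ x y : X, ‖x‖ = 1 → ‖y‖ = 1 →
    L * ‖x - y‖ ^ 2 ≤ 1 - ‖(1 / 2 : ℝ) • (x + y)‖

/-- `f` is second order Lipschitz on `U`. -/
def SecondOrderLipschitz {X : Type*} [NormedAddCommGroup X] [NormedSpace ℝ X] (U : Set X)
    (f : X → X) : Prop :=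
  ∃ C : ℝ, ∀ x h : X, segment ℝ (x - h) (x + h) ⊆ U →
    ‖f (x + h) - (2 : ℝ) • f x + f (x - h)‖ ≤ C * ‖h‖ ^ 2

/-- `f` is Lipschitz-open on `U`. -/
def LipschitzOpen {X : Type*} [NormedAddCommGroup X] [NormedSpace ℝ X] (U : Set X)
    (f : X → X) : Prop :=
  ∃ c : ℝ, 0 < c ∧ ∀ x ∈ U, ∀ ε : ℝ, 0 < ε → ball x ε ⊆ U → ball (f x) (c * ε) ⊆ f '' ball x ε

/-- `f` is locally convex on `U`. -/
def LocallyConvexMap {X : Type*} [NormedAddCommGroup X] [NormedSpace ℝ X] (U : Set X)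
    (f : X → X) : Prop :=
  ∃ c : ℝ, 0 < c ∧ ∀ ε : ℝ, 0 < ε → ε ≤ c → ∀ x ∈ U, ball x ε ⊆ U → Convex ℝ (f '' ball x ε)

/-- Admissible spaces. -/
def Admissible (X : Type*) [NormedAddCommGroup X] [NormedSpace ℝ X] : Prop :=
  ∀ (U : Set X) (f : X → X), IsOpen U → LipschitzOpen U f → SecondOrderLipschitz U f →
    LocallyConvexMap U f

variable {X : Type*} [NormedAddCommGroup X] [NormedSpace ℝ X]

/-- The model map. -/
noncomputable def F (φ : StrongDual ℝ X) (u : X) (c : ℝ) (v : X) : X :=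
  v + ((1 / 16 : ℝ) * (φ v - c) ^ 2) • u

theorem bad (h : ¬ PowerType2 X) (r : ℝ) (hr0 : 0 < r) (hr1 : r ≤ 1) :
    ∃ (φ : StrongDual ℝ X) (u : X) (c : ℝ), ‖φ‖ = 1 ∧ ‖u‖ ≤ 2 ∧ |c| ≤ 1 ∧ φ u = 0 ∧
      ¬ Convex ℝ (F φ u c '' ball 0 r) := by
  unfold PowerType2 at h
  push Not at h
  obtain ⟨x, y, hx, hy, hxy⟩ := h (r / 256) (by positivity)
  set ε : ℝ := r / 256 with hε
  obtain ⟨m, hm⟩ : ∃ m : X, m = (1 / 2 : ℝ) • (x + y) := ⟨_, rfl⟩
  rw [← hm] at hxy
  set d : ℝ := ‖x - y‖ with hd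
  have hd2 : d ≤ 2 := by
    refine (norm_sub_le x y).trans ?_
    rw [hx, hy]; norm_num
  have hm1 : ‖m‖ ≤ 1 := by
    rw [hm, norm_smul]
    have := norm_add_le x y
    rw [hx, hy] at this
    norm_num
    linarith
  have hd0 : 0 < d := by
    rcases (norm_nonneg (x - y)).eq_or_lt with h0 | h0
    · exfalso
      rw [hd, ← h0] at hxy
      simp at hxy
      linarith
    · exact h0
  have hmε : 1 - ε * d ^ 2 < ‖m‖ := by linarith
  have hεd : ε * d ^ 2 ≤ 1 / 64 := by
    have h1 : d ^ 2 ≤ 4 := by nlinarith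
    have h2 : ε ≤ 1 / 256 := by rw [hε]; linarith
    have h3 : 0 ≤ ε := by positivity
    nlinarith
  have hm0 : m ≠ 0 := by
    intro h0
    rw [h0, norm_zero] at hmε
    linarith
  have hxy0 : x - y ≠ 0 := norm_pos_iff.mp hd0
  obtain ⟨φ, hφ1, hφ2⟩ := exists_dual_vector ℝ (x - y) (norm_ne_zero_iff.mpr hxy0)
  obtain ⟨g, hg1, hg2⟩ := exists_dual_vector ℝ m (norm_ne_zero_iff.mpr hm0)
  have hφ3 : φ (x - y) = d := by simpa using hφ2
  have hg3 : g m = ‖m‖ := by simpa using hg2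
  set u : X := m - (φ m / d) • (x - y) with hu
  have hφm : |φ m| ≤ 1 := by
    have := φ.le_opNorm m
    rw [hφ1, one_mul, Real.norm_eq_abs] at this
    exact this.trans hm1
  have hφu : φ u = 0 := by
    rw [hu, map_sub, map_smul, hφ3, smul_eq_mul, div_mul_cancel₀ _ hd0.ne', sub_self]
  have hun : ‖u‖ ≤ 2 := by
    refine (norm_sub_le _ _).trans ?_
    rw [norm_smul, Real.norm_eq_abs, abs_div, abs_of_pos hd0, ← hd, div_mul_cancel₀ _ hd0.ne']
    linarith
  have hgx : g x ≤ 1 := by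
    have := g.le_opNorm x
    rw [hg1, one_mul, Real.norm_eq_abs, hx] at this
    exact (le_abs_self _).trans this
  have hgy : g y ≤ 1 := by
    have := g.le_opNorm y
    rw [hg1, one_mul, Real.norm_eq_abs, hy] at this
    exact (le_abs_self _).trans this
  have hgsum : g x + g y = 2 * ‖m‖ := by
    rw [← hg3, hm, map_smul, map_add, smul_eq_mul]
    ring
  have hgd : |g (x - y)| ≤ 2 * (ε * d ^ 2) := by
    rw [map_sub, abs_le]
    constructor <;> linarith
  have hgu : 1 / 2 ≤ g u := by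
    rw [hu, map_sub, map_smul, hg3, smul_eq_mul]
    have h1 : |φ m / d * g (x - y)| ≤ 2 * (ε * d) := by
      rw [abs_mul, abs_div, abs_of_pos hd0]
      calc |φ m| / d * |g (x - y)| ≤ 1 / d * (2 * (ε * d ^ 2)) := by
            apply mul_le_mul _ hgd (abs_nonneg _) (by positivity)
            gcongr
        _ = 2 * (ε * d) := by field_simp
    have h2 := (abs_le.mp h1).2
    have h3 : ε ≤ 1 / 256 := by rw [hε]; linarith
    have h4 : 0 ≤ ε := by positivity
    have h5 : ε * d ≤ 1 / 128 := by nlinarith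
    linarith
  -- choose the scale `s`
  obtain ⟨s, hs0, hsr, hs⟩ : ∃ s : ℝ, 0 < s ∧ s < r ∧
      r < s * (1 - ε * d ^ 2) + 1 / 16 * s ^ 2 * d ^ 2 / 8 := by
    have hcont : Continuous (fun s : ℝ => s * (1 - ε * d ^ 2) + 1 / 16 * s ^ 2 * d ^ 2 / 8) := by
      fun_prop
    have hat : r < r * (1 - ε * d ^ 2) + 1 / 16 * r ^ 2 * d ^ 2 / 8 := by
      have : 0 < r * r * d ^ 2 := by positivity
      rw [hε]
      nlinarith
    have h1 : ∀ᶠ s in 𝓝[<] r, r < s * (1 - ε * d ^ 2) + 1 / 16 * s ^ 2 * d ^ 2 / 8 :=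
      (hcont.continuousAt.eventually (lt_mem_nhds hat)).filter_mono nhdsWithin_le_nhds
    have h2 : ∀ᶠ s in 𝓝[<] r, 0 < s := (lt_mem_nhds hr0).filter_mono nhdsWithin_le_nhds
    have h3 : ∀ᶠ s in 𝓝[<] r, s < r := eventually_mem_nhdsWithin
    obtain ⟨s, hs1, hs2, hs3⟩ := (h1.and (h2.and h3)).exists
    exact ⟨s, hs2, hs3, hs1⟩
  refine ⟨φ, u, s * φ m, hφ1, hun, ?_, hφu, fun hconv => ?_⟩
  · rw [abs_mul, abs_of_pos hs0]
    nlinarith [abs_nonneg (φ m)]
  · have hφx : φ x - φ m = d / 2 := by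
      rw [hm, map_smul, map_add, smul_eq_mul, ← hφ3, map_sub]; ring
    have hφy : φ y - φ m = -(d / 2) := by
      rw [hm, map_smul, map_add, smul_eq_mul, ← hφ3, map_sub]; ring
    have hFx : F φ u (s * φ m) (s • x) = s • x + ((1 / 16 : ℝ) * (s ^ 2 * (d ^ 2 / 4))) • u := by
      unfold F
      rw [map_smul, smul_eq_mul, ← mul_sub, hφx]
      congr 2
      ring
    have hFy : F φ u (s * φ m) (s • y) = s • y + ((1 / 16 : ℝ) * (s ^ 2 * (d ^ 2 / 4))) • u := by
      unfold F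
      rw [map_smul, smul_eq_mul, ← mul_sub, hφy]
      congr 2
      ring
    have h1 : s • x + ((1 / 16 : ℝ) * (s ^ 2 * (d ^ 2 / 4))) • u ∈ F φ u (s * φ m) '' ball 0 r := by
      rw [← hFx]
      refine ⟨s • x, ?_, rfl⟩
      rw [mem_ball_zero_iff, norm_smul, hx, Real.norm_eq_abs, abs_of_pos hs0, mul_one]
      exact hsr
    have h2 : s • y + ((1 / 16 : ℝ) * (s ^ 2 * (d ^ 2 / 4))) • u ∈ F φ u (s * φ m) '' ball 0 r := by
      rw [← hFy]
      refine ⟨s • y, ?_, rfl⟩
      rw [mem_ball_zero_iff, norm_smul, hy, Real.norm_eq_abs, abs_of_pos hs0, mul_one]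
      exact hsr
    have h3 := hconv h1 h2 (show (0 : ℝ) ≤ 1 / 2 by norm_num) (show (0 : ℝ) ≤ 1 / 2 by norm_num)
      (by norm_num)
    set P : X := s • m + ((1 / 16 : ℝ) * (s ^ 2 * (d ^ 2 / 4))) • u with hP
    have h4 : (1 / 2 : ℝ) • (s • x + ((1 / 16 : ℝ) * (s ^ 2 * (d ^ 2 / 4))) • u) +
        (1 / 2 : ℝ) • (s • y + ((1 / 16 : ℝ) * (s ^ 2 * (d ^ 2 / 4))) • u) = P := by
      rw [hP, hm]
      module
    rw [h4] at h3
    obtain ⟨w, hw, hFw⟩ := h3
    have h5 : φ w = s * φ m := by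
      have := congrArg φ hFw
      unfold F at this
      rw [hP, map_add, map_add, map_smul, map_smul, map_smul, hφu, smul_zero, add_zero,
        smul_zero, add_zero, smul_eq_mul] at this
      exact this
    have h6 : F φ u (s * φ m) w = w := by
      unfold F
      rw [h5, sub_self]
      simp
    rw [h6] at hFw
    rw [mem_ball_zero_iff, hFw] at hw
    have h7 : g P ≤ ‖P‖ := by
      have := g.le_opNorm P
      rw [hg1, one_mul, Real.norm_eq_abs] at this
      exact (le_abs_self _).trans this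
    have h8 : g P = s * ‖m‖ + (1 / 16) * (s ^ 2 * (d ^ 2 / 4)) * g u := by
      rw [hP, map_add, map_smul, map_smul, hg3, smul_eq_mul, smul_eq_mul]
    have h9 : s * (1 - ε * d ^ 2) ≤ s * ‖m‖ := mul_le_mul_of_nonneg_left hmε.le hs0.le
    have h10 : (1 / 16 : ℝ) * (s ^ 2 * (d ^ 2 / 4)) * (1 / 2) ≤
        (1 / 16) * (s ^ 2 * (d ^ 2 / 4)) * g u :=
      mul_le_mul_of_nonneg_left hgu (by positivity)
    have h11 : (1 / 16 : ℝ) * (s ^ 2 * (d ^ 2 / 4)) * (1 / 2) = 1 / 16 * s ^ 2 * d ^ 2 / 8 := by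
      ring
    linarith

theorem result (X : Type*) [NormedAddCommGroup X] [NormedSpace ℝ X] [CompleteSpace X]
    (hX : Admissible X) : PowerType2 X := by
  by_contra hnot
  -- a unit vector
  obtain ⟨e, he⟩ : ∃ e : X, ‖e‖ = 1 := by
    unfold PowerType2 at hnot
    push Not at hnot
    obtain ⟨x, _, hx, _⟩ := hnot 1 one_pos
    exact ⟨x, hx⟩
  have hrk : ∀ k : ℕ, 0 < (1 : ℝ) / (k + 1) ∧ (1 : ℝ) / (k + 1) ≤ 1 := by
    intro k
    refine ⟨by positivity, ?_⟩
    rw [div_le_one (by positivity)]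
    linarith [(Nat.cast_nonneg k : (0 : ℝ) ≤ k)]
  choose φ u c hφ hu hc hφu hbad using fun k : ℕ => bad hnot (1 / (k + 1)) (hrk k).1 (hrk k).2
  let q : ℕ → X := fun k => (5 * k : ℝ) • e
  have hq : ∀ i j : ℕ, i ≠ j → 5 ≤ ‖q i - q j‖ := by
    intro i j hij
    have h1 : q i - q j = (5 * ((i : ℝ) - j)) • e := by
      show (5 * i : ℝ) • e - (5 * j : ℝ) • e = _
      rw [← sub_smul]; congr 1; ring
    rw [h1, norm_smul, he, mul_one, Real.norm_eq_abs, abs_mul, abs_of_pos (by norm_num : (0 : ℝ) < 5)]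
    have h2 : (1 : ℝ) ≤ |(i : ℝ) - j| := by
      have h3 : (1 : ℤ) ≤ |(i : ℤ) - j| := Int.one_le_abs (sub_ne_zero.mpr (by exact_mod_cast hij))
      exact_mod_cast h3
    linarith
  have hdisj : ∀ i j : ℕ, i ≠ j → Disjoint (ball (q i) 1) (ball (q j) 1) := by
    intro i j hij
    rw [Set.disjoint_left]
    intro v h1 h2
    rw [mem_ball, dist_eq_norm] at h1 h2
    have h3 := hq i j hij
    have h4 : q i - q j = (v - q j) - (v - q i) := by abel
    have h5 := norm_sub_le (v - q j) (v - q i)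
    rw [← h4] at h5
    linarith
  let U : Set X := ⋃ k, ball (q k) 1
  have hU : IsOpen U := isOpen_iUnion (fun k => isOpen_ball)
  have hsub : ∀ (s : Set X) (k : ℕ), IsPreconnected s → s ⊆ U → (s ∩ ball (q k) 1).Nonempty →
      s ⊆ ball (q k) 1 := by
    intro s k hs hsU hne
    have hV : IsOpen (⋃ j ∈ {j : ℕ | j ≠ k}, ball (q j) 1) :=
      isOpen_biUnion (fun j _ => isOpen_ball)
    refine hs.subset_left_of_subset_union isOpen_ball hV ?_ ?_ hne
    · rw [Set.disjoint_left]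
      intro v h1 h2
      rw [mem_iUnion₂] at h2
      obtain ⟨j, hj, h3⟩ := h2
      exact Set.disjoint_left.mp (hdisj j k hj) h3 h1
    · intro v hv
      obtain ⟨j, hj⟩ := mem_iUnion.mp (hsU hv)
      by_cases hjk : j = k
      · left; rw [← hjk]; exact hj
      · right; rw [mem_iUnion₂]; exact ⟨j, hjk, hj⟩
  -- the index of the ball containing a point
  have hidx : ∃ idx : X → ℕ, ∀ k, ∀ v ∈ ball (q k) 1, idx v = k := by
    classical
    refine ⟨fun v => if h : ∃ k, v ∈ ball (q k) 1 then h.choose else 0, fun k v hv => ?_⟩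
    have h : ∃ k, v ∈ ball (q k) 1 := ⟨k, hv⟩
    simp only [dif_pos h]
    by_contra hne
    exact Set.disjoint_left.mp (hdisj _ _ hne) h.choose_spec hv
  obtain ⟨idx, hidx⟩ := hidx
  let f : X → X := fun v => q (idx v) + F (φ (idx v)) (u (idx v)) (c (idx v)) (v - q (idx v))
  have hf : ∀ k, ∀ v ∈ ball (q k) 1, f v = q k + F (φ k) (u k) (c k) (v - q k) := by
    intro k v hv
    simp only [f, hidx k v hv]
  have hφle : ∀ k v, |φ k v| ≤ ‖v‖ := by
    intro k v
    have := (φ k).le_opNorm v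
    rwa [hφ, one_mul, Real.norm_eq_abs] at this
  -- Lipschitz-openness
  have hopen : LipschitzOpen U f := by
    refine ⟨1 / 2, by norm_num, fun x hx ε hε hball y hy => ?_⟩
    obtain ⟨k, hk⟩ := mem_iUnion.mp hx
    have hb : ball x ε ⊆ ball (q k) 1 :=
      hsub _ k (convex_ball x ε).isPreconnected hball ⟨x, mem_ball_self hε, hk⟩
    have hε2 : ε ≤ 2 := by
      by_contra hcon
      push Not at hcon
      have h1 : x + (2 : ℝ) • e ∈ ball (q k) 1 := by
        apply hb
        rw [mem_ball, dist_eq_norm, add_sub_cancel_left, norm_smul, he]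
        norm_num
        exact hcon
      rw [mem_ball, dist_eq_norm] at h1 hk
      have h2 : (2 : ℝ) • e = (x + (2 : ℝ) • e - q k) - (x - q k) := by abel
      have h3 : ‖(2 : ℝ) • e‖ = 2 := by rw [norm_smul, he]; norm_num
      have h4 := norm_sub_le (x + (2 : ℝ) • e - q k) (x - q k)
      rw [← h2, h3] at h4
      linarith
    have hfx := hf k x hk
    rw [mem_ball, dist_eq_norm, hfx] at hy
    set δ : ℝ := ‖y - (q k + F (φ k) (u k) (c k) (x - q k))‖ with hδ
    -- explicit preimage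
    set v : X := y - ((1 / 16 : ℝ) * (φ k (y - q k) - c k) ^ 2) • u k with hv
    have hφv : φ k (v - q k) = φ k (y - q k) := by
      have : v - q k = (y - q k) - ((1 / 16 : ℝ) * (φ k (y - q k) - c k) ^ 2) • u k := by
        rw [hv]; abel
      rw [this, map_sub (φ k) (y - q k), map_smul, hφu, smul_zero, sub_zero]
    have hφx : φ k (F (φ k) (u k) (c k) (x - q k)) = φ k (x - q k) := by
      unfold F
      rw [map_add, map_smul, hφu, smul_zero, add_zero]
    set a : ℝ := φ k (y - q k) - c k with ha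
    set b : ℝ := φ k (x - q k) - c k with hb'
    have hab : |a - b| ≤ δ := by
      have h1 : a - b = φ k (y - (q k + F (φ k) (u k) (c k) (x - q k))) := by
        have h2 : y - (q k + F (φ k) (u k) (c k) (x - q k)) =
            (y - q k) - F (φ k) (u k) (c k) (x - q k) := by abel
        rw [h2, map_sub (φ k) (y - q k), hφx, ha, hb']
        ring
      rw [h1]
      exact hφle k _
    have hb2 : |b| ≤ 2 := by
      rw [mem_ball, dist_eq_norm] at hk
      have h1 := hφle k (x - q k)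
      have h2 := abs_sub (φ k (x - q k)) (c k)
      have h3 := hc k
      rw [hb']
      linarith
    have hδ1 : δ < 1 := by linarith
    have hvx : v - x = (y - (q k + F (φ k) (u k) (c k) (x - q k))) -
        ((1 / 16 : ℝ) * (a ^ 2 - b ^ 2)) • u k := by
      rw [hv]
      unfold F
      rw [← hb']
      module
    have hvn : ‖v - x‖ < ε := by
      rw [hvx]
      refine lt_of_le_of_lt (norm_sub_le _ _) ?_
      rw [norm_smul, Real.norm_eq_abs, ← hδ]
      have h1 : |(1 / 16 : ℝ) * (a ^ 2 - b ^ 2)| ≤ 1 / 16 * (δ * 5) := by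
        rw [abs_mul, abs_of_pos (by norm_num : (0 : ℝ) < 1 / 16)]
        apply mul_le_mul_of_nonneg_left _ (by norm_num)
        have h2 : a ^ 2 - b ^ 2 = (a - b) * (a + b) := by ring
        rw [h2, abs_mul]
        apply mul_le_mul hab _ (abs_nonneg _) (norm_nonneg _)
        have h3 : a + b = (a - b) + 2 * b := by ring
        rw [h3]
        have h4 := abs_add_le (a - b) (2 * b)
        rw [abs_mul, abs_of_pos (by norm_num : (0 : ℝ) < 2)] at h4
        linarith
      have h5 : |(1 / 16 : ℝ) * (a ^ 2 - b ^ 2)| * ‖u k‖ ≤ 1 / 16 * (δ * 5) * 2 :=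
        mul_le_mul h1 (hu k) (norm_nonneg _) (by positivity)
      have h6 : 0 ≤ δ := norm_nonneg _
      linarith
    have hvb : v ∈ ball x ε := by rw [mem_ball, dist_eq_norm]; exact hvn
    refine ⟨v, hvb, ?_⟩
    rw [hf k v (hb hvb)]
    unfold F
    rw [hφv, ← ha, hv]
    module
  -- second order Lipschitz
  have hsec : SecondOrderLipschitz U f := by
    refine ⟨1 / 4, fun x h hseg => ?_⟩
    have hmid : x ∈ segment ℝ (x - h) (x + h) := by
      refine ⟨1 / 2, 1 / 2, by norm_num, by norm_num, by norm_num, ?_⟩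
      module
    obtain ⟨k, hk⟩ := mem_iUnion.mp (hseg hmid)
    have hb := hsub _ k (convex_segment (𝕜 := ℝ) (x - h) (x + h)).isPreconnected hseg
      ⟨x, hmid, hk⟩
    have hp := hf k (x + h) (hb (right_mem_segment ℝ _ _))
    have hm := hf k (x - h) (hb (left_mem_segment ℝ _ _))
    have h0 := hf k x hk
    have e1 : f (x + h) - (2 : ℝ) • f x + f (x - h) = ((1 / 8 : ℝ) * (φ k h) ^ 2) • u k := by
      rw [hp, hm, h0]
      unfold F
      have a1 : φ k (x + h - q k) = φ k (x - q k) + φ k h := by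
        rw [← map_add]; congr 1; abel
      have a2 : φ k (x - h - q k) = φ k (x - q k) - φ k h := by
        rw [← map_sub]; congr 1; abel
      rw [a1, a2]
      module
    rw [e1, norm_smul, Real.norm_eq_abs, abs_of_nonneg (by positivity)]
    have h1 := hφle k h
    have h2 : (φ k h) ^ 2 ≤ ‖h‖ ^ 2 := by
      rw [← sq_abs (φ k h)]
      gcongr
    have h3 := hu k
    have h4 : (0 : ℝ) ≤ ‖h‖ ^ 2 := by positivity
    calc (1 / 8 : ℝ) * (φ k h) ^ 2 * ‖u k‖ ≤ 1 / 8 * ‖h‖ ^ 2 * 2 :=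
          mul_le_mul (by linarith) h3 (norm_nonneg _) (by positivity)
      _ = 1 / 4 * ‖h‖ ^ 2 := by ring
  -- contradiction
  obtain ⟨c₀, hc₀, hconv⟩ := hX U f hU hopen hsec
  obtain ⟨k, hk⟩ := exists_nat_one_div_lt hc₀
  have hballs : ball (q k) (1 / ((k : ℝ) + 1)) ⊆ ball (q k) 1 := ball_subset_ball (hrk k).2
  have hqU : q k ∈ U := mem_iUnion.mpr ⟨k, mem_ball_self one_pos⟩
  have h1 := hconv (1 / (k + 1)) (hrk k).1 hk.le (q k) hqU
    (hballs.trans (subset_iUnion (fun k => ball (q k) 1) k))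
  apply hbad k
  have h2 : F (φ k) (u k) (c k) '' ball 0 (1 / (k + 1)) =
      (fun z => -q k + z) '' (f '' ball (q k) (1 / (k + 1))) := by
    ext z
    constructor
    · rintro ⟨w, hw, rfl⟩
      have hw' : q k + w ∈ ball (q k) (1 / (k + 1)) := by
        rw [mem_ball, dist_eq_norm, add_sub_cancel_left]
        exact mem_ball_zero_iff.mp hw
      refine ⟨f (q k + w), ⟨q k + w, hw', rfl⟩, ?_⟩
      simp only
      rw [hf k _ (hballs hw'), add_sub_cancel_left]
      abel
    · rintro ⟨_, ⟨w, hw, rfl⟩, rfl⟩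
      refine ⟨w - q k, ?_, ?_⟩
      · rw [mem_ball_zero_iff, ← dist_eq_norm]
        exact hw
      · simp only
        rw [hf k _ (hballs hw)]
        abel
  rw [h2]
  exact h1.translate _

end Pool.Agent.Results.MP_122452_an.AdmissiblePower2
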